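import Mathlib

/-!
# Arithmetic for the core estimate
-/

set_option autoImplicit false
set_option maxHeartbeats 4000000

namespace Pool.Agent.W756.PD

theorem inv_sqrt_le {N : ℝ} (hN : 4 ≤ N) :
    1 / Real.sqrt (N - 2) ≤ 1 / Real.sqrt N * (1 + 1 / (N - 2)) := by
  have h2 : 0 < N - 2 := by linarith
  have h1 : 0 < N := by linarith
  have s1 : 0 < Real.sqrt N := Real.sqrt_pos.mpr h1
  have s2 : 0 < Real.sqrt (N - 2) := Real.sqrt_pos.mpr h2
  rw [div_mul_eq_mul_div, one_mul, div_le_div_iff₀ s2 s1]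
  rw [one_mul]
  apply Real.sqrt_le_iff.mpr
  constructor
  · positivity
  · rw [mul_pow, Real.sq_sqrt h2.le]
    have : (1 + 1 / (N - 2)) ^ 2 * (N - 2) = N + 1 / (N - 2) := by
      field_simp
      ring
    rw [this]
    have : 0 < 1 / (N - 2) := by positivity
    linarith

/-- case A: with `r = 1 / √N`, `r' = 1 / √(N-2)` -/
theorem arithA {N W U C H G C' m r r' : ℝ} (hm : 2 ≤ m) (hH : H = 20 * (m + 2)) (hC' : 0 < C')
    (hG : G = 2 * H * (m + 2) + 2 * C' + 100) (hC : C = 100 * G) (hN : C ^ 2 ≤ N)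
    (hW : 0 ≤ W) (hGW : G * W ≤ N) (hU : 0 ≤ U) (hr : 0 < r) (hrN : r ^ 2 * N = 1)
    (hr' : r' ≤ r * (1 + 1 / (N - 2))) (hr'0 : 0 < r') :
    ((N - 1 - m) * (C * r') + H / (N - 2) * ((1 + W) * (m + 2 * U * W + U * N / 2) + 2) +
      G / (N - 2) * ((N - 2 - m) * W + 3) + (C' * r' + C' * (W + 3) / (N - 2))) / (N - 1) ≤
    C * r + H * (1 + W) * U / N + G * W / N := by
  have hHpos : 80 ≤ H := by rw [hH]; linarith
  have hHM : 320 ≤ H * (m + 2) := by nlinarith
  have hG1 : 100 ≤ G := by rw [hG]; nlinarith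
  have hGm : m + 2 ≤ G := by rw [hG]; nlinarith
  have hC1 : 10000 ≤ C := by rw [hC]; linarith
  have hNC : 100 * G * C ≤ N := by nlinarith
  have hN1 : 10000 * G ^ 2 ≤ N := by rw [hC] at hN; nlinarith
  have hN2 : 1000000 ≤ N := by nlinarith
  have hmN : m + 2 ≤ N / 100 := by nlinarith
  have hWN : W ≤ N / 100 := by
    have : 100 * W ≤ G * W := by nlinarith
    linarith
  have hA : 0 < N - 1 := by linarith
  have hB : 0 < N - 2 := by linarith
  have hN0 : 0 < N := by linarith
  have hrC : C ≤ r * N := by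
    have h1 : C ^ 2 ≤ (r * N) ^ 2 := by
      have : (r * N) ^ 2 = N := by
        calc (r * N) ^ 2 = (r ^ 2 * N) * N := by ring
          _ = N := by rw [hrN, one_mul]
      rw [this]; exact hN
    have h2 : 0 ≤ r * N := by positivity
    exact (sq_le_sq₀ (by linarith) h2).mp h1
  -- part 1
  have p1 : (N - 1 - m) * (C * r') / (N - 1) ≤ C * r - C * r / N := by
    have h1 : (N - 1 - m) * (C * r') ≤ (N - 3) * (C * (r * (1 + 1 / (N - 2)))) := by
      have h3 : C * r' ≤ C * (r * (1 + 1 / (N - 2))) := by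
        apply mul_le_mul_of_nonneg_left hr'; linarith
      have h4 : 0 ≤ C * r' := by positivity
      calc (N - 1 - m) * (C * r') ≤ (N - 3) * (C * r') := by
            apply mul_le_mul_of_nonneg_right _ h4; linarith
        _ ≤ _ := by apply mul_le_mul_of_nonneg_left h3; linarith
    have h2 : (N - 3) * (C * (r * (1 + 1 / (N - 2)))) / (N - 1) = C * r - C * r / (N - 2) := by
      field_simp
      ring
    have h3 : C * r / N ≤ C * r / (N - 2) := by
      apply div_le_div_of_nonneg_left _ hB (by linarith)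
      positivity
    calc (N - 1 - m) * (C * r') / (N - 1) ≤ (N - 3) * (C * (r * (1 + 1 / (N - 2)))) / (N - 1) :=
          div_le_div_of_nonneg_right h1 hA.le
      _ = C * r - C * r / (N - 2) := h2
      _ ≤ _ := by linarith
  -- 1 / ((N-1)(N-2)) ≤ 1.1/N²
  have q1 : 1 / ((N - 1) * (N - 2)) ≤ 1.1 / N ^ 2 := by
    rw [div_le_div_iff₀ (by positivity) (by positivity)]
    nlinarith
  -- part 2
  have p2 : H / (N - 2) * ((1 + W) * (m + 2 * U * W + U * N / 2) + 2) / (N - 1) ≤
      H * (1 + W) * U / N + 1.1 * H * (m + 2) * (1 + W) / N ^ 2 := by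
    have h1 : H / (N - 2) * ((1 + W) * (m + 2 * U * W + U * N / 2) + 2) / (N - 1) =
        (H * (1 + W) * U) * ((2 * W + N / 2) / ((N - 1) * (N - 2))) +
        (H * ((1 + W) * m + 2)) * (1 / ((N - 1) * (N - 2))) := by
      field_simp
      ring
    rw [h1]
    have h2 : (2 * W + N / 2) / ((N - 1) * (N - 2)) ≤ 1 / N := by
      rw [div_le_div_iff₀ (by positivity) (by positivity)]
      nlinarith
    have h3 : (H * (1 + W) * U) * ((2 * W + N / 2) / ((N - 1) * (N - 2))) ≤
        (H * (1 + W) * U) * (1 / N) := by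
      apply mul_le_mul_of_nonneg_left h2; positivity
    have h4 : (H * ((1 + W) * m + 2)) * (1 / ((N - 1) * (N - 2))) ≤
        (H * ((1 + W) * (m + 2))) * (1.1 / N ^ 2) := by
      apply mul_le_mul _ q1 (by positivity) (by positivity)
      apply mul_le_mul_of_nonneg_left _ (by linarith)
      nlinarith
    calc _ ≤ (H * (1 + W) * U) * (1 / N) + (H * ((1 + W) * (m + 2))) * (1.1 / N ^ 2) :=
          add_le_add h3 h4
      _ = _ := by ring
  -- part 3
  have p3 : G / (N - 2) * ((N - 2 - m) * W + 3) / (N - 1) ≤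
      G * W / N - G * W / N ^ 2 + 3.3 * G / N ^ 2 := by
    have h1 : G / (N - 2) * ((N - 2 - m) * W + 3) / (N - 1) =
        (G * W) * ((N - 2 - m) / ((N - 1) * (N - 2))) + (3 * G) * (1 / ((N - 1) * (N - 2))) := by
      field_simp
    rw [h1]
    have h2 : (N - 2 - m) / ((N - 1) * (N - 2)) ≤ 1 / N - 1 / N ^ 2 := by
      have : 1 / N - 1 / N ^ 2 = (N - 1) / N ^ 2 := by
        field_simp
      rw [this, div_le_div_iff₀ (by positivity) (by positivity)]
      have h5 : (N - 2 - m) * N ^ 2 ≤ (N - 4) * N ^ 2 := by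
        apply mul_le_mul_of_nonneg_right _ (by positivity); linarith
      have h6 : (N - 1) * ((N - 1) * (N - 2)) = (N - 4) * N ^ 2 + (5 * N - 2) := by ring
      rw [h6]; linarith
    have h3 := mul_le_mul_of_nonneg_left h2 (show 0 ≤ G * W by positivity)
    have h4 := mul_le_mul_of_nonneg_left q1 (show 0 ≤ 3 * G by positivity)
    calc _ ≤ (G * W) * (1 / N - 1 / N ^ 2) + (3 * G) * (1.1 / N ^ 2) := add_le_add h3 h4
      _ = _ := by ring
  -- part 4
  have p4 : C' * r' / (N - 1) ≤ 1.1 * C' * r / N := by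
    have h1 : r' / (N - 1) ≤ 1.1 * r / N := by
      have h2 : 1 / (N - 2) ≤ 0.01 := by
        rw [div_le_iff₀ hB]; linarith
      have h3 : r' ≤ r * 1.01 := by
        refine hr'.trans ?_
        apply mul_le_mul_of_nonneg_left _ hr.le; linarith
      rw [div_le_div_iff₀ hA hN0]
      have h4 : r' * N ≤ r * 1.01 * N := mul_le_mul_of_nonneg_right h3 hN0.le
      nlinarith
    calc C' * r' / (N - 1) = C' * (r' / (N - 1)) := by ring
      _ ≤ C' * (1.1 * r / N) := mul_le_mul_of_nonneg_left h1 hC'.le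
      _ = _ := by ring
  -- part 5
  have p5 : C' * (W + 3) / (N - 2) / (N - 1) ≤ 1.1 * C' * (W + 3) / N ^ 2 := by
    have h1 : C' * (W + 3) / (N - 2) / (N - 1) = (C' * (W + 3)) * (1 / ((N - 1) * (N - 2))) := by
      field_simp
    rw [h1]
    calc _ ≤ (C' * (W + 3)) * (1.1 / N ^ 2) := by
          apply mul_le_mul_of_nonneg_left q1; positivity
      _ = _ := by ring
  -- the bracket
  have br : - (C * r / N) + 1.1 * H * (m + 2) * (1 + W) / N ^ 2 - G * W / N ^ 2 +
      3.3 * G / N ^ 2 + 1.1 * C' * r / N + 1.1 * C' * (W + 3) / N ^ 2 ≤ 0 := by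
    have h1 : - (C * r / N) + 1.1 * H * (m + 2) * (1 + W) / N ^ 2 - G * W / N ^ 2 +
      3.3 * G / N ^ 2 + 1.1 * C' * r / N + 1.1 * C' * (W + 3) / N ^ 2 =
      (-(C - 1.1 * C') * (r * N) + 1.1 * (H * (m + 2)) * (1 + W) - G * W + 3.3 * G +
        1.1 * C' * (W + 3)) / N ^ 2 := by
      field_simp
      ring
    rw [h1]
    apply div_nonpos_of_nonpos_of_nonneg _ (by positivity)
    have hCC : 0 < C - 1.1 * C' := by
      rw [hC, hG]; nlinarith
    have h2 : (C / 2) * C ≤ (C - 1.1 * C') * (r * N) := by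
      have h3 : C / 2 ≤ C - 1.1 * C' := by
        have : 2 * C' ≤ G := by rw [hG]; nlinarith
        linarith
      exact mul_le_mul h3 hrC (by linarith) hCC.le
    have h3 : 5000 * G ^ 2 ≤ (C / 2) * C := by rw [hC]; nlinarith
    have h4 : 500000 * G ≤ 5000 * G ^ 2 := by nlinarith
    have h5 : 1.1 * (H * (m + 2)) + 1.1 * C' ≤ G := by rw [hG]; nlinarith
    have h6 : (1.1 * (H * (m + 2)) + 1.1 * C') * W ≤ G * W := mul_le_mul_of_nonneg_right h5 hW
    nlinarith
  have e1 : ((N - 1 - m) * (C * r') + H / (N - 2) * ((1 + W) * (m + 2 * U * W + U * N / 2) + 2) +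
      G / (N - 2) * ((N - 2 - m) * W + 3) + (C' * r' + C' * (W + 3) / (N - 2))) / (N - 1) =
      (N - 1 - m) * (C * r') / (N - 1) +
      H / (N - 2) * ((1 + W) * (m + 2 * U * W + U * N / 2) + 2) / (N - 1) +
      G / (N - 2) * ((N - 2 - m) * W + 3) / (N - 1) + C' * r' / (N - 1) +
      C' * (W + 3) / (N - 2) / (N - 1) := by
    rw [add_div, add_div, add_div, add_div]; ring
  rw [e1]
  linarith

/-- case B -/
theorem arithB {N W C H G C' m r r' : ℝ} (hm : 2 ≤ m) (hH : H = 20 * (m + 2)) (hC' : 0 < C')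
    (hG : G = 2 * H * (m + 2) + 2 * C' + 100) (hC : C = 100 * G) (hN : C ^ 2 ≤ N)
    (hW : 0 ≤ W) (hGW : G * W ≤ N) (hr : 0 < r) (hrN : r ^ 2 * N = 1)
    (hr' : r' ≤ r * (1 + 1 / (N - 2))) (hr'0 : 0 < r') :
    ((N - 1) * (C * r') + H / (N - 2) * ((1 + W) * (m + W + N / 4) + 2) +
      G / (N - 2) * ((N - 2) * W + 3) + (2 * m + W)) / (N - 1) ≤
    C * r + H * (1 + W) * (1 / 2) / N + G * W / N := by
  have hHpos : 80 ≤ H := by rw [hH]; linarith
  have hHM : 320 ≤ H * (m + 2) := by nlinarith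
  have hG1 : 100 ≤ G := by rw [hG]; nlinarith
  have hGm : m + 2 ≤ G := by rw [hG]; nlinarith
  have hC1 : 10000 ≤ C := by rw [hC]; linarith
  have hN1 : 10000 * G ^ 2 ≤ N := by rw [hC] at hN; nlinarith
  have hN1' : 1000000 * G ≤ N := by nlinarith
  have hN2 : 1000000 ≤ N := by nlinarith
  have hmN : m + 2 ≤ N / 100 := by nlinarith
  have hWN : W ≤ N / 100 := by
    have : 100 * W ≤ G * W := by nlinarith
    linarith
  have hA : 0 < N - 1 := by linarith
  have hB : 0 < N - 2 := by linarith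
  have hN0 : 0 < N := by linarith
  have hrC : C * r ≤ 1 := by
    have h1 : (C * r) ^ 2 ≤ 1 ^ 2 := by
      calc (C * r) ^ 2 = r ^ 2 * C ^ 2 := by ring
        _ ≤ r ^ 2 * N := mul_le_mul_of_nonneg_left hN (by positivity)
        _ = 1 ^ 2 := by rw [hrN]; norm_num
    exact (sq_le_sq₀ (by positivity) (by norm_num)).mp h1
  have q1 : 1 / ((N - 1) * (N - 2)) ≤ 1.1 / N ^ 2 := by
    rw [div_le_div_iff₀ (by positivity) (by positivity)]
    nlinarith
  have p1 : (N - 1) * (C * r') / (N - 1) ≤ C * r + 1.1 / N := by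
    rw [mul_div_cancel_left₀ _ hA.ne']
    have h1 : C * r' ≤ C * r + (C * r) / (N - 2) := by
      calc C * r' ≤ C * (r * (1 + 1 / (N - 2))) := by
            apply mul_le_mul_of_nonneg_left hr'; linarith
        _ = _ := by ring
    have h2 : (C * r) / (N - 2) ≤ 1.1 / N := by
      rw [div_le_div_iff₀ hB hN0]
      nlinarith
    linarith
  have p2 : H / (N - 2) * ((1 + W) * (m + W + N / 4) + 2) / (N - 1) ≤
      0.3 * H * (1 + W) / N := by
    have h1 : H / (N - 2) * ((1 + W) * (m + W + N / 4) + 2) / (N - 1) =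
        H * ((1 + W) * (m + W + N / 4) + 2) * (1 / ((N - 1) * (N - 2))) := by
      field_simp
    rw [h1]
    have h2 : (1 + W) * (m + W + N / 4) + 2 ≤ (1 + W) * (0.27 * N) := by nlinarith
    calc H * ((1 + W) * (m + W + N / 4) + 2) * (1 / ((N - 1) * (N - 2))) ≤
          H * ((1 + W) * (0.27 * N)) * (1.1 / N ^ 2) := by
            apply mul_le_mul _ q1 (by positivity) (by positivity)
            exact mul_le_mul_of_nonneg_left h2 (by linarith)
      _ = 0.297 * H * (1 + W) / N := by field_simp; ring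
      _ ≤ 0.3 * H * (1 + W) / N := by
            apply div_le_div_of_nonneg_right _ hN0.le
            have : 0 ≤ H * (1 + W) := by positivity
            nlinarith
  have p3 : G / (N - 2) * ((N - 2) * W + 3) / (N - 1) ≤ G * W / N + 2.2 / N := by
    have h1 : G / (N - 2) * ((N - 2) * W + 3) / (N - 1) =
        G * W / N + (G * W) / (N * (N - 1)) + (3 * G) * (1 / ((N - 1) * (N - 2))) := by
      field_simp
      ring
    rw [h1]
    have h2 : (G * W) / (N * (N - 1)) ≤ 1.1 / N := by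
      rw [div_le_div_iff₀ (by positivity) hN0]
      have h3 : G * W * N ≤ N * N := mul_le_mul_of_nonneg_right hGW hN0.le
      nlinarith
    have h3 : (3 * G) * (1 / ((N - 1) * (N - 2))) ≤ 1.1 / N := by
      calc (3 * G) * (1 / ((N - 1) * (N - 2))) ≤ (3 * G) * (1.1 / N ^ 2) :=
            mul_le_mul_of_nonneg_left q1 (by linarith)
        _ = (3 * G / N) * (1.1 / N) := by field_simp
        _ ≤ 1 * (1.1 / N) := by
            apply mul_le_mul_of_nonneg_right _ (by positivity)
            rw [div_le_iff₀ hN0]; linarith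
        _ = 1.1 / N := by ring
    have : G * W / N + 2.2 / N = G * W / N + 1.1 / N + 1.1 / N := by ring
    rw [this]
    linarith
  have p4 : (2 * m + W) / (N - 1) ≤ 1.1 * (2 * m + W) / N := by
    rw [div_le_div_iff₀ hA hN0]
    nlinarith
  have br : 1.1 / N + 0.3 * H * (1 + W) / N + 2.2 / N + 1.1 * (2 * m + W) / N ≤
      H * (1 + W) * (1 / 2) / N := by
    have h1 : 1.1 / N + 0.3 * H * (1 + W) / N + 2.2 / N + 1.1 * (2 * m + W) / N =
      (1.1 + 0.3 * H * (1 + W) + 2.2 + 1.1 * (2 * m + W)) / N := by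
      rw [add_div, add_div, add_div]
    rw [h1]
    apply div_le_div_of_nonneg_right _ hN0.le
    rw [hH]
    nlinarith
  have e1 : ((N - 1) * (C * r') + H / (N - 2) * ((1 + W) * (m + W + N / 4) + 2) +
      G / (N - 2) * ((N - 2) * W + 3) + (2 * m + W)) / (N - 1) =
      (N - 1) * (C * r') / (N - 1) + H / (N - 2) * ((1 + W) * (m + W + N / 4) + 2) / (N - 1) +
      G / (N - 2) * ((N - 2) * W + 3) / (N - 1) + (2 * m + W) / (N - 1) := by
    rw [add_div, add_div, add_div]
  rw [e1]
  linarith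

end Pool.Agent.W756.PD
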