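import Pool.Agent.W805.LR.Stm5
import Pool.Agent.W756.PD.CoArith

/-!
# The core estimate
-/

set_option autoImplicit false
set_option maxHeartbeats 4000000

namespace Pool.Agent.W756.PD

open Finset Equiv
open Pool.Agent.W805.LR Pool.Agent.W805.PD

/-- the core estimate with given constant, for `m` points -/
def CoreAt (m : ℕ) (C : ℝ) : Prop := ∀ (V : Type) [Fintype V] [DecidableEq V]
  (ρ : Perm V) (E S : Finset V) (σ : Perm V), Disjoint E S → S.card = m → Even E.card →
  E.Nonempty → (∀ x, x ∉ E → x ∉ S → ρ x = x) → (∀ x, x ∉ S → σ x = x) → (∀ x ∈ S, ρ x ∉ S) →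
  |favg ρ E S σ - 1 / (m.factorial : ℝ)| ≤
    C / Real.sqrt E.card + C * (1 + Wc ρ E S) / E.card

/-- case A: the next point after `ρ a` is not in `S` -/
theorem caseA (hl : S_local) (hr : S_rec) {V : Type} [Fintype V] [DecidableEq V] (k : ℕ)
    (hk : 1 ≤ k) (C' : ℝ) (hC' : 0 < C') (hcore : CoreAt k C') (C H G : ℝ)
    (hH : H = 20 * ((k + 1 : ℕ) + 2)) (hG : G = 2 * H * ((k + 1 : ℕ) + 2) + 2 * C' + 100)
    (hC : C = 100 * G)
    (ρ : Perm V) (E S : Finset V) (σ : Perm V) (a : V) (hd : Disjoint E S)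
    (hS : S.card = k + 1) (hE : Even E.card) (hρ : ∀ x, x ∉ E → x ∉ S → ρ x = x)
    (hσ : ∀ x, x ∉ S → σ x = x) (hadj : ∀ x ∈ S, ρ x ∉ S) (ha : a ∈ S)
    (hN : C ^ 2 ≤ E.card) (hGW : G * Wc ρ E S ≤ E.card) (hA : ρ (ρ a) ∉ S)
    (IH : ∀ s ∈ E.erase (ρ a), (∀ x ∈ S, stepP ρ (ρ a) s x ∉ S) →
      |favg (stepP ρ (ρ a) s) ((E.erase (ρ a)).erase s) S σ - 1 / ((k + 1).factorial : ℝ)| ≤
        C * (1 / Real.sqrt (E.card - 2)) + H * (1 + Wc (stepP ρ (ρ a) s) ((E.erase (ρ a)).erase s) S)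
          * Ua (stepP ρ (ρ a) s) S a / (E.card - 2) +
          G * Wc (stepP ρ (ρ a) s) ((E.erase (ρ a)).erase s) S / (E.card - 2)) :
    |favg ρ E S σ - 1 / ((k + 1).factorial : ℝ)| ≤
      C * (1 / Real.sqrt E.card) + H * (1 + Wc ρ E S) * Ua ρ S a / E.card +
        G * Wc ρ E S / E.card := by
  obtain ⟨l1, l2, l3, l4, l5, l6, l7, l8, l9, l10, l11, l12, l13, l14⟩ := hl V ρ E S a hd hρ ha hadj
  set e := ρ a with he
  have heE : e ∈ E := by
    by_contra h
    have h1 : ρ e = e := hρ e h (hadj a ha)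
    have h2 : e = a := ρ.injective h1
    exact hadj a ha (by rw [← he, h2]; exact ha)
  obtain ⟨_, r2, _, _, _, _⟩ := hr V ρ E S σ hd hE hρ hσ
  have hfav := r2 e heE
  -- numerical facts
  have hm2 : (2 : ℝ) ≤ ((k + 1 : ℕ) : ℝ) := by
    have : (1 : ℝ) ≤ k := by exact_mod_cast hk
    push_cast; linarith
  have hHpos : 80 ≤ H := by rw [hH]; linarith
  have hG1 : 100 ≤ G := by rw [hG]; nlinarith
  have hC1 : 10000 ≤ C := by rw [hC]; linarith
  have hNbig : (1000000 : ℝ) ≤ E.card := by nlinarith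
  have hNnat : 1000000 ≤ E.card := by exact_mod_cast hNbig
  set N : ℝ := (E.card : ℝ) with hNdef
  set W : ℝ := (Wc ρ E S : ℝ) with hWdef
  set U : ℝ := Ua ρ S a with hUdef
  have hW0 : 0 ≤ W := by positivity
  have hU0 : 0 ≤ U := by rw [hUdef]; unfold Ua; positivity
  have hN2 : 0 < N - 2 := by linarith
  have hN1 : 0 < N - 1 := by linarith
  have hN0 : 0 < N := by linarith
  -- cards
  have hc1 : (E.erase e).card = E.card - 1 := card_erase_of_mem heE
  have hc2 : ∀ s ∈ E.erase e, ((E.erase e).erase s).card = E.card - 2 := by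
    intro s hs
    rw [card_erase_of_mem hs, hc1]; omega
  have hc1' : ((E.erase e).card : ℝ) = N - 1 := by
    rw [hc1, Nat.cast_sub (by omega)]; simp [hNdef]
  have hc2' : ∀ s ∈ E.erase e, (((E.erase e).erase s).card : ℝ) = N - 2 := by
    intro s hs
    rw [hc2 s hs, Nat.cast_sub (by omega)]; simp [hNdef]
  have hdis : ∀ s, Disjoint ((E.erase e).erase s) S := fun s =>
    hd.mono_left ((erase_subset _ _).trans (erase_subset _ _))
  have heven : ∀ s ∈ E.erase e, Even ((E.erase e).erase s).card := by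
    intro s hs
    rw [hc2 s hs]
    exact Even.tsub hE even_two
  set f : V → ℝ := fun s => favg (stepP ρ e s) ((E.erase e).erase s) S σ with hf
  set w : V → ℝ := fun s => (Wc (stepP ρ e s) ((E.erase e).erase s) S : ℝ) with hw
  set u : V → ℝ := fun s => Ua (stepP ρ e s) S a with hu
  have hu0 : ∀ s, 0 ≤ u s := fun s => by simp only [hu]; unfold Ua; positivity
  have hw0 : ∀ s, 0 ≤ w s := fun s => by simp only [hw]; positivity
  set c0 : ℝ := 1 / ((k + 1).factorial : ℝ) with hc0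
  have l9' := l9 hA
  have l10' := l10 hA
  have l11' := l11 hA
  have l13' := l13 hA
  -- the sum
  have hsum : favg ρ E S σ - c0 = (∑ s ∈ E.erase e, (f s - c0)) / (N - 1) := by
    rw [hfav, sum_sub_distrib, sum_const, nsmul_eq_mul, hc1', sub_div,
      mul_div_cancel_left₀ _ hN1.ne']
  set T := (E.erase e).filter (fun s => ρ s ∈ S) with hT
  set T' := (E.erase e).filter (fun s => ¬ ρ s ∈ S) with hT'
  have hsplit : ∑ s ∈ E.erase e, (f s - c0) = ∑ s ∈ T, (f s - c0) + ∑ s ∈ T', (f s - c0) :=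
    (sum_filter_add_sum_filter_not _ _ _).symm
  -- T has k+1 elements
  have hTimg : T.image ρ = S := by
    ext y
    simp only [hT, mem_image, mem_filter]
    constructor
    · rintro ⟨s, ⟨_, h⟩, rfl⟩; exact h
    · intro hy
      obtain ⟨s, hs, hsy⟩ := l11' y hy
      exact ⟨s, ⟨hs, by rw [hsy]; exact hy⟩, hsy⟩
  have hTcard : T.card = k + 1 := by
    rw [← hS, ← hTimg, card_image_of_injective _ ρ.injective]
  have hT'card : (T'.card : ℝ) = N - 1 - ((k + 1 : ℕ) : ℝ) := by
    have : T.card + T'.card = (E.erase e).card := card_filter_add_card_filter_not _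
    have h2 : (T.card : ℝ) + T'.card = N - 1 := by rw [← hc1']; exact_mod_cast this
    rw [hTcard] at h2; linarith
  -- special partner
  have hσa : σ a ∈ S := by
    by_contra h
    have h1 : σ (σ a) = σ a := hσ _ h
    have h2 : σ a = a := σ.injective h1
    rw [h2] at h
    exact h ha
  obtain ⟨s0, hs0, hs0a⟩ := l11' (σ a) hσa
  have hs0T : s0 ∈ T := by
    simp only [hT, mem_filter]; exact ⟨hs0, by rw [hs0a]; exact hσa⟩
  have hsupp : ∀ s ∈ E.erase e, ∀ x, x ∉ (E.erase e).erase s → x ∉ S → stepP ρ e s x = x := l1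
  have hsumT : ∑ s ∈ T, f s = f s0 := by
    apply sum_eq_single_of_mem s0 hs0T
    intro s hs hne
    have hsE : s ∈ E.erase e := (mem_filter.mp hs).1
    have hsS : ρ s ∈ S := (mem_filter.mp hs).2
    obtain ⟨_, _, c3, _, _, _⟩ := hr V (stepP ρ e s) ((E.erase e).erase s) S σ (hdis s)
      (heven s hsE) (hsupp s hsE) hσ
    have h1 := l10' s hsE hsS
    have h2 := c3 a ha (by rw [h1]; exact hsS)
    simp only [hf]
    rw [h2, if_neg]
    rw [h1, ← hs0a]
    intro h3
    exact hne (ρ.injective h3.symm)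
  have hf0 : |f s0 - 1 / (k.factorial : ℝ)| ≤
      C' * (1 / Real.sqrt (N - 2)) + C' * (W + 3) / (N - 2) := by
    have hs0S : ρ s0 ∈ S := by rw [hs0a]; exact hσa
    obtain ⟨_, _, c3, c4, c5, c6⟩ := hr V (stepP ρ e s0) ((E.erase e).erase s0) S σ (hdis s0)
      (heven s0 hs0) (hsupp s0 hs0) hσ
    have h1 := l10' s0 hs0 hs0S
    have h1S : stepP ρ e s0 a ∈ S := by rw [h1]; exact hs0S
    have h2 := c3 a ha h1S
    rw [if_pos (by rw [h1, hs0a])] at h2
    obtain ⟨c41, c42⟩ := c4 a ha h1S (l13' s0 hs0)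
    have hne : ((E.erase e).erase s0).Nonempty := by
      rw [← card_pos, hc2 s0 hs0]; omega
    have h3 := hcore V (rem (stepP ρ e s0) a) ((E.erase e).erase s0) (S.erase a) (rem σ a)
      ((hdis s0).mono_right (erase_subset _ _)) (by rw [card_erase_of_mem ha, hS]; rfl)
      (heven s0 hs0) hne (c6 a ha h1S) (c5 a ha) c41
    simp only [hf]
    rw [h2]
    refine h3.trans ?_
    rw [hc2' s0 hs0]
    have h4 : (Wc (rem (stepP ρ e s0) a) ((E.erase e).erase s0) (S.erase a) : ℝ) ≤ W + 2 := by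
      have h5 : Wc (rem (stepP ρ e s0) a) ((E.erase e).erase s0) (S.erase a) ≤ Wc ρ E S + 2 :=
        c42.trans (l3 s0 hs0)
      rw [hWdef]; exact_mod_cast h5
    rw [mul_one_div]
    apply add_le_add le_rfl
    apply div_le_div_of_nonneg_right _ hN2.le
    apply mul_le_mul_of_nonneg_left _ hC'.le
    linarith
  have hsumTc : ∑ s ∈ T, (f s - c0) = f s0 - 1 / (k.factorial : ℝ) := by
    rw [sum_sub_distrib, hsumT, sum_const, nsmul_eq_mul, hTcard, hc0]
    congr 1
    rw [Nat.factorial_succ]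
    push_cast
    have : (k : ℝ) + 1 ≠ 0 := by positivity
    have : (k.factorial : ℝ) ≠ 0 := by positivity
    field_simp
  -- the other partners
  have hadj' : ∀ s ∈ T', ∀ x ∈ S, stepP ρ e s x ∉ S := by
    intro s hs x hx
    have hsE : s ∈ E.erase e := (mem_filter.mp hs).1
    have hsS : ρ s ∉ S := (mem_filter.mp hs).2
    by_cases hxa : x = a
    · subst hxa
      rw [l9' s hsE]; exact hsS
    · exact l13' s hsE x hx hxa
  have hu1 : ∀ s ∈ T', u s ≤ 1 / 2 := by
    intro s hs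
    have hsE : s ∈ E.erase e := (mem_filter.mp hs).1
    obtain ⟨_, _, _, _, _, _, m7, _⟩ := hl V (stepP ρ e s) ((E.erase e).erase s) S a (hdis s)
      (hsupp s hsE) ha (hadj' s hs)
    exact m7
  have hT'2 : T' = (E.erase e).filter (fun s => stepP ρ e s a ∉ S) := by
    rw [hT']
    apply filter_congr
    intro s hs
    rw [l9' s hs]
  have hsumU : ∑ s ∈ T', u s ≤ ((k + 1 : ℕ) : ℝ) + 2 * U * W + U * N / 2 := by
    have := l6
    rw [hS] at this
    rw [hT'2]
    exact this
  have hsumW : ∑ s ∈ T', w s ≤ (N - 2 - ((k + 1 : ℕ) : ℝ)) * W + 3 := by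
    have h1 : ∑ s ∈ E.erase e, w s + W ≤ (N - 1) * W + 3 := l2
    have h2 : ∑ s ∈ T, w s + ∑ s ∈ T', w s = ∑ s ∈ E.erase e, w s :=
      sum_filter_add_sum_filter_not _ _ _
    have h3 : ((k + 1 : ℕ) : ℝ) * W ≤ ∑ s ∈ T, w s := by
      have : ∑ s ∈ T, W ≤ ∑ s ∈ T, w s := by
        apply sum_le_sum
        intro s hs
        have hsE : s ∈ E.erase e := (mem_filter.mp hs).1
        have hsS : ρ s ∈ S := (mem_filter.mp hs).2
        have := l5 s hsE hsS
        simp only [hw, hWdef]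
        exact_mod_cast this
      rwa [sum_const, nsmul_eq_mul, hTcard] at this
    linarith
  have hsumWU : ∑ s ∈ T', (1 + w s) * u s ≤
      (1 + W) * (((k + 1 : ℕ) : ℝ) + 2 * U * W + U * N / 2) + 2 := by
    have h1 : ∀ s ∈ T', (1 + w s) * u s ≤ (1 + W) * u s +
        (if Wc ρ E S < Wc (stepP ρ e s) ((E.erase e).erase s) S then (1 : ℝ) else 0) := by
      intro s hs
      have hsE : s ∈ E.erase e := (mem_filter.mp hs).1
      by_cases h : Wc ρ E S < Wc (stepP ρ e s) ((E.erase e).erase s) S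
      · rw [if_pos h]
        have h2 : w s ≤ W + 2 := by
          simp only [hw, hWdef]; exact_mod_cast l3 s hsE
        have h3 := hu1 s hs
        have h4 := hu0 s
        nlinarith
      · rw [if_neg h]
        have h2 : w s ≤ W := by
          simp only [hw, hWdef]; exact_mod_cast not_lt.mp h
        have h4 := hu0 s
        nlinarith
    have h2 : ∑ s ∈ T', (if Wc ρ E S < Wc (stepP ρ e s) ((E.erase e).erase s) S
        then (1 : ℝ) else 0) ≤ 2 := by
      rw [← sum_filter, sum_const, nsmul_eq_mul, mul_one]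
      have h3 : (T'.filter (fun s => Wc ρ E S <
          Wc (stepP ρ e s) ((E.erase e).erase s) S)).card ≤ 2 := by
        refine le_trans (card_le_card ?_) l4
        apply filter_subset_filter
        exact filter_subset _ _
      exact_mod_cast h3
    calc ∑ s ∈ T', (1 + w s) * u s ≤ ∑ s ∈ T', ((1 + W) * u s +
        (if Wc ρ E S < Wc (stepP ρ e s) ((E.erase e).erase s) S then (1 : ℝ) else 0)) :=
          sum_le_sum h1
      _ = (1 + W) * ∑ s ∈ T', u s + ∑ s ∈ T', (if Wc ρ E S <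
          Wc (stepP ρ e s) ((E.erase e).erase s) S then (1 : ℝ) else 0) := by
          rw [sum_add_distrib, mul_sum]
      _ ≤ _ := by
          apply add_le_add _ h2
          apply mul_le_mul_of_nonneg_left hsumU
          linarith
  have hr2 : 0 < 1 / Real.sqrt (N - 2) := by
    have := Real.sqrt_pos.mpr hN2; positivity
  have hr1 : 0 < 1 / Real.sqrt N := by
    have := Real.sqrt_pos.mpr hN0; positivity
  have hT'sum : |∑ s ∈ T', (f s - c0)| ≤ (N - 1 - ((k + 1 : ℕ) : ℝ)) *
      (C * (1 / Real.sqrt (N - 2))) +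
      H / (N - 2) * ((1 + W) * (((k + 1 : ℕ) : ℝ) + 2 * U * W + U * N / 2) + 2) +
      G / (N - 2) * ((N - 2 - ((k + 1 : ℕ) : ℝ)) * W + 3) := by
    calc |∑ s ∈ T', (f s - c0)| ≤ ∑ s ∈ T', |f s - c0| := abs_sum_le_sum_abs _ _
      _ ≤ ∑ s ∈ T', (C * (1 / Real.sqrt (N - 2)) + H / (N - 2) * ((1 + w s) * u s) +
          G / (N - 2) * w s) := by
          apply sum_le_sum
          intro s hs
          have hsE : s ∈ E.erase e := (mem_filter.mp hs).1
          have := IH s hsE (hadj' s hs)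
          simp only [hf]
          refine this.trans (le_of_eq ?_)
          simp only [hw, hu]
          ring
      _ = (T'.card : ℝ) * (C * (1 / Real.sqrt (N - 2))) + H / (N - 2) * ∑ s ∈ T', (1 + w s) * u s +
          G / (N - 2) * ∑ s ∈ T', w s := by
          rw [sum_add_distrib, sum_add_distrib, sum_const, nsmul_eq_mul, mul_sum, mul_sum]
      _ ≤ _ := by
          rw [hT'card]
          apply add_le_add (add_le_add le_rfl _)
          · apply mul_le_mul_of_nonneg_left hsumW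
            have : 0 ≤ G := by linarith
            positivity
          · apply mul_le_mul_of_nonneg_left hsumWU
            have : 0 ≤ H := by linarith
            positivity
  rw [hsum, abs_div, abs_of_pos hN1]
  refine le_trans ?_ (arithA (m := ((k + 1 : ℕ) : ℝ)) (r := 1 / Real.sqrt N)
    (r' := 1 / Real.sqrt (N - 2)) hm2 hH hC' hG hC hN hW0 hGW hU0 hr1 ?_ ?_ hr2)
  · apply div_le_div_of_nonneg_right _ hN1.le
    rw [hsplit, hsumTc]
    calc _ ≤ |f s0 - 1 / (k.factorial : ℝ)| + |∑ s ∈ T', (f s - c0)| := abs_add_le _ _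
      _ ≤ _ := by linarith
  · rw [div_pow, one_pow, Real.sq_sqrt hN0.le]
    field_simp
  · exact inv_sqrt_le (by linarith)

/-- case B: the next point after `ρ a` is in `S` -/
theorem caseB (hl : S_local) (hr : S_rec) {V : Type} [Fintype V] [DecidableEq V] (k : ℕ)
    (hk : 1 ≤ k) (C' : ℝ) (hC' : 0 < C') (C H G : ℝ)
    (hH : H = 20 * ((k + 1 : ℕ) + 2)) (hG : G = 2 * H * ((k + 1 : ℕ) + 2) + 2 * C' + 100)
    (hC : C = 100 * G)
    (ρ : Perm V) (E S : Finset V) (σ : Perm V) (a : V) (hd : Disjoint E S)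
    (hS : S.card = k + 1) (hE : Even E.card) (hρ : ∀ x, x ∉ E → x ∉ S → ρ x = x)
    (hσ : ∀ x, x ∉ S → σ x = x) (hadj : ∀ x ∈ S, ρ x ∉ S) (ha : a ∈ S)
    (hN : C ^ 2 ≤ E.card) (hGW : G * Wc ρ E S ≤ E.card) (hA : ρ (ρ a) ∈ S)
    (IH : ∀ s ∈ E.erase (ρ a), (∀ x ∈ S, stepP ρ (ρ a) s x ∉ S) →
      |favg (stepP ρ (ρ a) s) ((E.erase (ρ a)).erase s) S σ - 1 / ((k + 1).factorial : ℝ)| ≤
        C * (1 / Real.sqrt (E.card - 2)) + H * (1 + Wc (stepP ρ (ρ a) s) ((E.erase (ρ a)).erase s) S)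
          * Ua (stepP ρ (ρ a) s) S a / (E.card - 2) +
          G * Wc (stepP ρ (ρ a) s) ((E.erase (ρ a)).erase s) S / (E.card - 2)) :
    |favg ρ E S σ - 1 / ((k + 1).factorial : ℝ)| ≤
      C * (1 / Real.sqrt E.card) + H * (1 + Wc ρ E S) * Ua ρ S a / E.card +
        G * Wc ρ E S / E.card := by
  obtain ⟨l1, l2, l3, l4, l5, l6, l7, l8, l9, l10, l11, l12, l13, l14⟩ := hl V ρ E S a hd hρ ha hadj
  have hUhalf : Ua ρ S a = 1 / 2 := l8.mpr hA
  set e := ρ a with he
  have heE : e ∈ E := by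
    by_contra h
    have h1 : ρ e = e := hρ e h (hadj a ha)
    have h2 : e = a := ρ.injective h1
    exact hadj a ha (by rw [← he, h2]; exact ha)
  obtain ⟨_, r2, _, _, _, _⟩ := hr V ρ E S σ hd hE hρ hσ
  have hfav := r2 e heE
  -- numerical facts
  have hm2 : (2 : ℝ) ≤ ((k + 1 : ℕ) : ℝ) := by
    have : (1 : ℝ) ≤ k := by exact_mod_cast hk
    push_cast; linarith
  have hHpos : 80 ≤ H := by rw [hH]; linarith
  have hG1 : 100 ≤ G := by rw [hG]; nlinarith
  have hC1 : 10000 ≤ C := by rw [hC]; linarith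
  have hNbig : (1000000 : ℝ) ≤ E.card := by nlinarith
  have hNnat : 1000000 ≤ E.card := by exact_mod_cast hNbig
  set N : ℝ := (E.card : ℝ) with hNdef
  set W : ℝ := (Wc ρ E S : ℝ) with hWdef
  have hW0 : 0 ≤ W := by positivity
  have hN2 : 0 < N - 2 := by linarith
  have hN1 : 0 < N - 1 := by linarith
  have hN0 : 0 < N := by linarith
  -- cards
  have hc1 : (E.erase e).card = E.card - 1 := card_erase_of_mem heE
  have hc2 : ∀ s ∈ E.erase e, ((E.erase e).erase s).card = E.card - 2 := by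
    intro s hs
    rw [card_erase_of_mem hs, hc1]; omega
  have hc1' : ((E.erase e).card : ℝ) = N - 1 := by
    rw [hc1, Nat.cast_sub (by omega)]; simp [hNdef]
  have hdis : ∀ s, Disjoint ((E.erase e).erase s) S := fun s =>
    hd.mono_left ((erase_subset _ _).trans (erase_subset _ _))
  have heven : ∀ s ∈ E.erase e, Even ((E.erase e).erase s).card := by
    intro s hs
    rw [hc2 s hs]
    exact Even.tsub hE even_two
  set f : V → ℝ := fun s => favg (stepP ρ e s) ((E.erase e).erase s) S σ with hf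
  set w : V → ℝ := fun s => (Wc (stepP ρ e s) ((E.erase e).erase s) S : ℝ) with hw
  set u : V → ℝ := fun s => Ua (stepP ρ e s) S a with hu
  have hu0 : ∀ s, 0 ≤ u s := fun s => by simp only [hu]; unfold Ua; positivity
  have hw0 : ∀ s, 0 ≤ w s := fun s => by simp only [hw]; positivity
  set c0 : ℝ := 1 / ((k + 1).factorial : ℝ) with hc0
  have hc01 : 0 ≤ c0 ∧ c0 ≤ 1 := by
    constructor
    · positivity
    · rw [hc0, div_le_one (by positivity)]
      exact_mod_cast Nat.one_le_iff_ne_zero.mpr (Nat.factorial_ne_zero _)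
  have hsupp : ∀ s ∈ E.erase e, ∀ x, x ∉ (E.erase e).erase s → x ∉ S → stepP ρ e s x = x := l1
  -- the sum
  have hsum : favg ρ E S σ - c0 = (∑ s ∈ E.erase e, (f s - c0)) / (N - 1) := by
    rw [hfav, sum_sub_distrib, sum_const, nsmul_eq_mul, hc1', sub_div,
      mul_div_cancel_left₀ _ hN1.ne']
  set T := (E.erase e).filter (fun s => ∀ x ∈ S, stepP ρ e s x ∉ S) with hT
  set T' := (E.erase e).filter (fun s => ¬ ∀ x ∈ S, stepP ρ e s x ∉ S) with hT'
  have hsplit : ∑ s ∈ E.erase e, (f s - c0) = ∑ s ∈ T, (f s - c0) + ∑ s ∈ T', (f s - c0) :=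
    (sum_filter_add_sum_filter_not _ _ _).symm
  have hTcard : (T.card : ℝ) ≤ N - 1 := by
    rw [← hc1']
    exact_mod_cast card_le_card (filter_subset _ _)
  have hT'card : (T'.card : ℝ) ≤ 2 * ((k + 1 : ℕ) : ℝ) + W := by
    have h1 : T' ⊆ ((E.erase e).filter fun s => stepP ρ e s a ∈ S) ∪
        ((E.erase e).filter fun s => ∃ x ∈ S, x ≠ a ∧ stepP ρ e s x ∈ S) := by
      intro s hs
      simp only [hT', mem_filter, not_forall, not_not] at hs
      obtain ⟨hsE, x, hx, hxS⟩ := hs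
      simp only [mem_union, mem_filter]
      by_cases hxa : x = a
      · left; subst hxa; exact ⟨hsE, hxS⟩
      · right; exact ⟨hsE, x, hx, hxa, hxS⟩
    have h2 := (card_le_card h1).trans (card_union_le _ _)
    have h3 : T'.card ≤ 2 * (k + 1) + Wc ρ E S := by
      rw [hS] at l12 l14
      omega
    rw [hWdef]
    exact_mod_cast h3
  have hu1 : ∀ s ∈ T, u s ≤ 1 / 2 := by
    intro s hs
    have hsE : s ∈ E.erase e := (mem_filter.mp hs).1
    obtain ⟨_, _, _, _, _, _, m7, _⟩ := hl V (stepP ρ e s) ((E.erase e).erase s) S a (hdis s)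
      (hsupp s hsE) ha ((mem_filter.mp hs).2)
    exact m7
  have hsumU : ∑ s ∈ T, u s ≤ ((k + 1 : ℕ) : ℝ) + W + N / 4 := by
    have h1 : ∑ s ∈ T, u s ≤ ∑ s ∈ (E.erase e).filter (fun s => stepP ρ e s a ∉ S), u s := by
      apply sum_le_sum_of_subset_of_nonneg
      · intro s hs
        simp only [hT, mem_filter] at hs ⊢
        exact ⟨hs.1, hs.2 a ha⟩
      · intro s _ _; exact hu0 s
    refine h1.trans ?_
    have := l6
    rw [hS, hUhalf] at this
    refine this.trans (le_of_eq ?_)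
    ring
  have hsumW : ∑ s ∈ T, w s ≤ (N - 2) * W + 3 := by
    have h1 : ∑ s ∈ E.erase e, w s + W ≤ (N - 1) * W + 3 := l2
    have h2 : ∑ s ∈ T, w s ≤ ∑ s ∈ E.erase e, w s := by
      apply sum_le_sum_of_subset_of_nonneg (filter_subset _ _)
      intro s _ _; exact hw0 s
    linarith
  have hsumWU : ∑ s ∈ T, (1 + w s) * u s ≤ (1 + W) * (((k + 1 : ℕ) : ℝ) + W + N / 4) + 2 := by
    have h1 : ∀ s ∈ T, (1 + w s) * u s ≤ (1 + W) * u s +
        (if Wc ρ E S < Wc (stepP ρ e s) ((E.erase e).erase s) S then (1 : ℝ) else 0) := by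
      intro s hs
      have hsE : s ∈ E.erase e := (mem_filter.mp hs).1
      by_cases h : Wc ρ E S < Wc (stepP ρ e s) ((E.erase e).erase s) S
      · rw [if_pos h]
        have h2 : w s ≤ W + 2 := by
          simp only [hw, hWdef]; exact_mod_cast l3 s hsE
        have h3 := hu1 s hs
        have h4 := hu0 s
        nlinarith
      · rw [if_neg h]
        have h2 : w s ≤ W := by
          simp only [hw, hWdef]; exact_mod_cast not_lt.mp h
        have h4 := hu0 s
        nlinarith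
    have h2 : ∑ s ∈ T, (if Wc ρ E S < Wc (stepP ρ e s) ((E.erase e).erase s) S
        then (1 : ℝ) else 0) ≤ 2 := by
      rw [← sum_filter, sum_const, nsmul_eq_mul, mul_one]
      have h3 : (T.filter (fun s => Wc ρ E S <
          Wc (stepP ρ e s) ((E.erase e).erase s) S)).card ≤ 2 := by
        refine le_trans (card_le_card ?_) l4
        apply filter_subset_filter
        exact filter_subset _ _
      exact_mod_cast h3
    calc ∑ s ∈ T, (1 + w s) * u s ≤ ∑ s ∈ T, ((1 + W) * u s +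
        (if Wc ρ E S < Wc (stepP ρ e s) ((E.erase e).erase s) S then (1 : ℝ) else 0)) :=
          sum_le_sum h1
      _ = (1 + W) * ∑ s ∈ T, u s + ∑ s ∈ T, (if Wc ρ E S <
          Wc (stepP ρ e s) ((E.erase e).erase s) S then (1 : ℝ) else 0) := by
          rw [sum_add_distrib, mul_sum]
      _ ≤ _ := by
          apply add_le_add _ h2
          apply mul_le_mul_of_nonneg_left hsumU
          linarith
  have hr2 : 0 < 1 / Real.sqrt (N - 2) := by
    have := Real.sqrt_pos.mpr hN2; positivity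
  have hr1 : 0 < 1 / Real.sqrt N := by
    have := Real.sqrt_pos.mpr hN0; positivity
  have hTsum : |∑ s ∈ T, (f s - c0)| ≤ (N - 1) * (C * (1 / Real.sqrt (N - 2))) +
      H / (N - 2) * ((1 + W) * (((k + 1 : ℕ) : ℝ) + W + N / 4) + 2) +
      G / (N - 2) * ((N - 2) * W + 3) := by
    calc |∑ s ∈ T, (f s - c0)| ≤ ∑ s ∈ T, |f s - c0| := abs_sum_le_sum_abs _ _
      _ ≤ ∑ s ∈ T, (C * (1 / Real.sqrt (N - 2)) + H / (N - 2) * ((1 + w s) * u s) +
          G / (N - 2) * w s) := by
          apply sum_le_sum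
          intro s hs
          have hsE : s ∈ E.erase e := (mem_filter.mp hs).1
          have := IH s hsE ((mem_filter.mp hs).2)
          simp only [hf]
          refine this.trans (le_of_eq ?_)
          simp only [hw, hu]
          ring
      _ = (T.card : ℝ) * (C * (1 / Real.sqrt (N - 2))) + H / (N - 2) * ∑ s ∈ T, (1 + w s) * u s +
          G / (N - 2) * ∑ s ∈ T, w s := by
          rw [sum_add_distrib, sum_add_distrib, sum_const, nsmul_eq_mul, mul_sum, mul_sum]
      _ ≤ _ := by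
          apply add_le_add (add_le_add _ _)
          · apply mul_le_mul_of_nonneg_left hsumW
            have : 0 ≤ G := by linarith
            positivity
          · apply mul_le_mul_of_nonneg_right hTcard
            have : 0 ≤ C := by linarith
            positivity
          · apply mul_le_mul_of_nonneg_left hsumWU
            have : 0 ≤ H := by linarith
            positivity
  have hT'sum : |∑ s ∈ T', (f s - c0)| ≤ 2 * ((k + 1 : ℕ) : ℝ) + W := by
    calc |∑ s ∈ T', (f s - c0)| ≤ ∑ s ∈ T', |f s - c0| := abs_sum_le_sum_abs _ _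
      _ ≤ ∑ s ∈ T', (1 : ℝ) := by
          apply sum_le_sum
          intro s hs
          have hsE : s ∈ E.erase e := (mem_filter.mp hs).1
          obtain ⟨⟨b1, b2⟩, _⟩ := hr V (stepP ρ e s) ((E.erase e).erase s) S σ (hdis s)
            (heven s hsE) (hsupp s hsE) hσ
          simp only [hf]
          rw [abs_le]
          constructor <;> linarith [hc01.1, hc01.2]
      _ = (T'.card : ℝ) := by rw [sum_const, nsmul_eq_mul, mul_one]
      _ ≤ _ := hT'card
  rw [hsum, abs_div, abs_of_pos hN1, hUhalf]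
  refine le_trans ?_ (arithB (m := ((k + 1 : ℕ) : ℝ)) (r := 1 / Real.sqrt N)
    (r' := 1 / Real.sqrt (N - 2)) hm2 hH hC' hG hC hN hW0 hGW hr1 ?_ ?_ hr2)
  · apply div_le_div_of_nonneg_right _ hN1.le
    rw [hsplit]
    calc _ ≤ |∑ s ∈ T, (f s - c0)| + |∑ s ∈ T', (f s - c0)| := abs_add_le _ _
      _ ≤ _ := by linarith
  · rw [div_pow, one_pow, Real.sq_sqrt hN0.le]
    field_simp
  · exact inv_sqrt_le (by linarith)

/-- the induction -/
theorem inner (hl : S_local) (hr : S_rec) (k : ℕ)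
    (hk : 1 ≤ k) (C' : ℝ) (hC' : 0 < C') (hcore : CoreAt k C') (C H G : ℝ)
    (hH : H = 20 * ((k + 1 : ℕ) + 2)) (hG : G = 2 * H * ((k + 1 : ℕ) + 2) + 2 * C' + 100)
    (hC : C = 100 * G) (V : Type) [Fintype V] [DecidableEq V] (n : ℕ) :
    ∀ (ρ : Perm V) (E S : Finset V) (σ : Perm V) (a : V), E.card = n → Disjoint E S →
    S.card = k + 1 → Even E.card → E.Nonempty → (∀ x, x ∉ E → x ∉ S → ρ x = x) →
    (∀ x, x ∉ S → σ x = x) → (∀ x ∈ S, ρ x ∉ S) → a ∈ S →
    |favg ρ E S σ - 1 / ((k + 1).factorial : ℝ)| ≤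
      C * (1 / Real.sqrt E.card) + H * (1 + Wc ρ E S) * Ua ρ S a / E.card +
        G * Wc ρ E S / E.card := by
  induction n using Nat.strong_induction_on with
  | _ n IH =>
  intro ρ E S σ a hn hd hS hE hne hρ hσ hadj ha
  have hm2 : (2 : ℝ) ≤ ((k + 1 : ℕ) : ℝ) := by
    have : (1 : ℝ) ≤ k := by exact_mod_cast hk
    push_cast; linarith
  have hHpos : 80 ≤ H := by rw [hH]; linarith
  have hG1 : 100 ≤ G := by rw [hG]; nlinarith
  have hC1 : 10000 ≤ C := by rw [hC]; linarith
  have hN0 : (0 : ℝ) < E.card := by exact_mod_cast card_pos.mpr hne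
  have hs0 : 0 < Real.sqrt (E.card : ℝ) := Real.sqrt_pos.mpr hN0
  have hU0 : 0 ≤ Ua ρ S a := by unfold Ua; positivity
  have t1 : 0 ≤ C * (1 / Real.sqrt (E.card : ℝ)) := by positivity
  have t2 : 0 ≤ H * (1 + Wc ρ E S) * Ua ρ S a / E.card := by
    have : 0 ≤ H := by linarith
    positivity
  have t3 : 0 ≤ G * Wc ρ E S / E.card := by
    have : 0 ≤ G := by linarith
    positivity
  have htriv : |favg ρ E S σ - 1 / ((k + 1).factorial : ℝ)| ≤ 1 := by
    obtain ⟨⟨b1, b2⟩, _⟩ := hr V ρ E S σ hd hE hρ hσ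
    have hc1 : (1 : ℝ) / ((k + 1).factorial : ℝ) ≤ 1 := by
      rw [div_le_one (by positivity)]
      exact_mod_cast Nat.one_le_iff_ne_zero.mpr (Nat.factorial_ne_zero _)
    have hc0 : (0 : ℝ) ≤ 1 / ((k + 1).factorial : ℝ) := by positivity
    rw [abs_le]
    constructor <;> linarith
  by_cases hN : C ^ 2 ≤ E.card
  swap
  · have h1 : 1 ≤ C * (1 / Real.sqrt (E.card : ℝ)) := by
      rw [mul_one_div, le_div_iff₀ hs0, one_mul]
      apply Real.sqrt_le_iff.mpr
      exact ⟨by linarith, (not_le.mp hN).le⟩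
    linarith
  by_cases hGW : G * Wc ρ E S ≤ E.card
  swap
  · have h1 : 1 ≤ G * Wc ρ E S / E.card := by
      rw [le_div_iff₀ hN0, one_mul]
      exact (not_le.mp hGW).le
    linarith
  have hNbig : (1000000 : ℝ) ≤ E.card := by nlinarith
  have hNnat : 1000000 ≤ E.card := by exact_mod_cast hNbig
  have heE : ρ a ∈ E := by
    by_contra h
    have h1 : ρ (ρ a) = ρ a := hρ _ h (hadj a ha)
    have h2 : ρ a = a := ρ.injective h1
    exact hadj a ha (by rw [h2]; exact ha)
  obtain ⟨l1, _⟩ := hl V ρ E S a hd hρ ha hadj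
  have IH' : ∀ s ∈ E.erase (ρ a), (∀ x ∈ S, stepP ρ (ρ a) s x ∉ S) →
      |favg (stepP ρ (ρ a) s) ((E.erase (ρ a)).erase s) S σ - 1 / ((k + 1).factorial : ℝ)| ≤
        C * (1 / Real.sqrt (E.card - 2)) + H * (1 + Wc (stepP ρ (ρ a) s) ((E.erase (ρ a)).erase s) S)
          * Ua (stepP ρ (ρ a) s) S a / (E.card - 2) +
          G * Wc (stepP ρ (ρ a) s) ((E.erase (ρ a)).erase s) S / (E.card - 2) := by
    intro s hs hadj'
    have hc : ((E.erase (ρ a)).erase s).card = E.card - 2 := by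
      rw [card_erase_of_mem hs, card_erase_of_mem heE]; omega
    have hc' : (((E.erase (ρ a)).erase s).card : ℝ) = E.card - 2 := by
      rw [hc, Nat.cast_sub (by omega)]; simp
    have := IH (E.card - 2) (by omega) (stepP ρ (ρ a) s) ((E.erase (ρ a)).erase s) S σ a hc
      (hd.mono_left ((erase_subset _ _).trans (erase_subset _ _))) hS
      (by rw [hc]; exact Even.tsub hE even_two) (by rw [← card_pos, hc]; omega)
      (l1 s hs) hσ hadj' ha
    rwa [hc'] at this
  by_cases hA : ρ (ρ a) ∈ S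
  · exact caseB hl hr k hk C' hC' C H G hH hG hC ρ E S σ a hd hS hE hρ hσ hadj ha hN hGW hA IH'
  · exact caseA hl hr k hk C' hC' hcore C H G hH hG hC ρ E S σ a hd hS hE hρ hσ hadj ha hN hGW hA
      IH'

/-- at most one point -/
theorem small (htr : S_tr) (hma : S_match) (m : ℕ) (hm : m ≤ 1) (C : ℝ) (hC : 0 < C) :
    CoreAt m C := by
  intro V _ _ ρ E S σ hd hS hE hne hρ hσ hadj
  have key : ∀ τ : Perm V, (∀ x, x ∉ S → τ x = x) → τ = 1 := by
    intro τ hτ
    ext x
    rw [Perm.one_apply]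
    by_cases hx : x ∈ S
    · have h1 : τ x ∈ S := by
        by_contra h
        have h2 := hτ _ h
        have h3 := τ.injective h2
        rw [h3] at h
        exact h hx
      exact card_le_one.mp (by omega) _ h1 _ hx
    · exact hτ x hx
  have hσ1 : σ = 1 := key σ hσ
  have h1 : favg ρ E S σ = 1 := by
    unfold favg avgM
    have h2 : ∀ α ∈ matchings E, (if tr (α * ρ) S = σ then (1 : ℝ) else 0) = 1 := by
      intro α _
      rw [if_pos]
      rw [hσ1]
      apply key
      intro x hx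
      exact (htr V).2.2.2.2.1 _ _ _ hx
    rw [sum_congr rfl h2, sum_const, nsmul_eq_mul, mul_one, div_self]
    have := card_pos.mpr (hma.1 V E hE)
    positivity
  have h2 : (m.factorial : ℝ) = 1 := by
    interval_cases m <;> simp
  rw [h1, h2]
  simp only [div_one, sub_self, abs_zero]
  positivity

/-- CO: the core estimate. -/
theorem main (htr : S_tr) (hma : S_match) (hl : S_local) (hr : S_rec) : S_core := by
  have key : ∀ m : ℕ, ∃ C : ℝ, 0 < C ∧ CoreAt m C := by
    intro m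
    induction m with
    | zero => exact ⟨1, one_pos, small htr hma 0 (by norm_num) 1 one_pos⟩
    | succ k ih =>
      obtain ⟨C', hC', hcore⟩ := ih
      rcases Nat.eq_zero_or_pos k with rfl | hk
      · exact ⟨1, one_pos, small htr hma 1 le_rfl 1 one_pos⟩
      · obtain ⟨H, hH⟩ : ∃ H : ℝ, H = 20 * (((k + 1 : ℕ) : ℝ) + 2) := ⟨_, rfl⟩
        obtain ⟨G, hG⟩ : ∃ G : ℝ, G = 2 * H * (((k + 1 : ℕ) : ℝ) + 2) + 2 * C' + 100 := ⟨_, rfl⟩
        obtain ⟨C, hC⟩ : ∃ C : ℝ, C = 100 * G := ⟨_, rfl⟩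
        have hm2 : (2 : ℝ) ≤ ((k + 1 : ℕ) : ℝ) := by
          have : (1 : ℝ) ≤ k := by exact_mod_cast hk
          push_cast; linarith
        have hHpos : 80 ≤ H := by rw [hH]; linarith
        have hG1 : 100 ≤ G := by rw [hG]; nlinarith
        have hGH : H ≤ G := by rw [hG]; nlinarith
        refine ⟨C, by rw [hC]; linarith, ?_⟩
        intro V _ _ ρ E S σ hd hS hE hne hρ hσ hadj
        obtain ⟨a, ha⟩ : S.Nonempty := by rw [← card_pos]; omega
        have h1 := inner hl hr k hk C' hC' hcore C H G hH hG hC V E.card ρ E S σ a rfl hd hS hE hne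
          hρ hσ hadj ha
        refine h1.trans ?_
        have hN0 : (0 : ℝ) < E.card := by exact_mod_cast card_pos.mpr hne
        have hU : Ua ρ S a ≤ 1 / 2 := (hl V ρ E S a hd hρ ha hadj).2.2.2.2.2.2.1
        have hU0 : 0 ≤ Ua ρ S a := by unfold Ua; positivity
        have hW0 : (0 : ℝ) ≤ Wc ρ E S := by positivity
        rw [mul_one_div, add_assoc]
        apply add_le_add le_rfl
        rw [← add_div]
        apply div_le_div_of_nonneg_right _ hN0.le
        have h2 : H * (1 + (Wc ρ E S : ℝ)) * Ua ρ S a ≤ H * (1 + (Wc ρ E S : ℝ)) * (1 / 2) := by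
          apply mul_le_mul_of_nonneg_left hU
          have : 0 ≤ H := by linarith
          positivity
        have h3 : H * (1 + (Wc ρ E S : ℝ)) ≤ G * (1 + (Wc ρ E S : ℝ)) :=
          mul_le_mul_of_nonneg_right hGH (by linarith)
        rw [hC]
        nlinarith
  intro m
  obtain ⟨C, hC, h⟩ := key m
  exact ⟨C, hC, fun V _ _ ρ E S σ => h V ρ E S σ⟩

end Pool.Agent.W756.PD
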